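import Pool.Agent.Q169.PT.Stm2

/-!
# Bounded cocycles are coboundaries

`S_CENTER` of `Pool.Agent.Q169.PT.Stm2`.
-/

set_option autoImplicit false

namespace Pool.Agent.Q38.PT.Ce

open Filter Topology
open Pool.Agent.Q169.PT (Rep IsCoc S_CENTER)

/-- JOB CENTER -/
theorem center : S_CENTER := by
  intro G H _ _ _ _ π b hb hbd
  obtain ⟨C, hC⟩ := hbd
  have hba : ∀ v : H, BddAbove (Set.range fun g => ‖v - b g‖) := by
    intro v
    refine ⟨‖v‖ + C, ?_⟩
    rintro _ ⟨g, rfl⟩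
    exact (norm_sub_le _ _).trans (by simpa using hC g)
  set f : H → ℝ := fun v => ⨆ g, ‖v - b g‖ with hf
  have hle : ∀ v g, ‖v - b g‖ ≤ f v := fun v g => le_ciSup (hba v) g
  have hf0 : ∀ v, 0 ≤ f v := fun v => (norm_nonneg _).trans (hle v 1)
  have hlip : ∀ v w, f v ≤ f w + ‖v - w‖ := by
    intro v w
    refine ciSup_le fun g => ?_
    have h1 : v - b g = (w - b g) + (v - w) := by abel
    rw [h1]
    exact (norm_add_le _ _).trans (add_le_add (hle w g) le_rfl)
  set r : ℝ := ⨅ v, f v with hr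
  have hrl : ∀ v, r ≤ f v := fun v => ciInf_le ⟨0, by rintro _ ⟨w, rfl⟩; exact hf0 w⟩ v
  have hr0 : 0 ≤ r := le_ciInf hf0
  have key : ∀ v w, ‖v - w‖ ^ 2 ≤ 2 * f v ^ 2 + 2 * f w ^ 2 - 4 * r ^ 2 := by
    intro v w
    set m : H := (1 / 2 : ℂ) • (v + w) with hm
    set K : ℝ := (f v ^ 2 + f w ^ 2) / 2 - ‖v - w‖ ^ 2 / 4 with hK
    have h1 : ∀ g, ‖m - b g‖ ^ 2 ≤ K := by
      intro g
      have h2 := parallelogram_law_with_norm ℂ (v - b g) (w - b g)
      have h3 : v - b g + (w - b g) = (2 : ℂ) • (m - b g) := by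
        rw [hm, smul_sub, smul_smul]
        norm_num
        rw [two_smul]
        abel
      have h4 : v - b g - (w - b g) = v - w := by abel
      rw [h3, h4, norm_smul] at h2
      have h5 : ‖(2 : ℂ)‖ = 2 := by norm_num
      rw [h5] at h2
      have h6 : ‖v - b g‖ ^ 2 ≤ f v ^ 2 := by
        exact pow_le_pow_left₀ (norm_nonneg _) (hle v g) 2
      have h7 : ‖w - b g‖ ^ 2 ≤ f w ^ 2 := by
        exact pow_le_pow_left₀ (norm_nonneg _) (hle w g) 2
      rw [hK]
      nlinarith [h2, h6, h7]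
    have h2 : 0 ≤ K := (sq_nonneg _).trans (h1 1)
    have h3 : f m ≤ Real.sqrt K := by
      refine ciSup_le fun g => ?_
      exact Real.le_sqrt_of_sq_le (h1 g)
    have h4 : r ^ 2 ≤ K := by
      have h5 : r ≤ Real.sqrt K := (hrl m).trans h3
      calc r ^ 2 ≤ Real.sqrt K ^ 2 := pow_le_pow_left₀ hr0 h5 2
        _ = K := Real.sq_sqrt h2
    rw [hK] at h4
    linarith
  have hex : ∀ n : ℕ, ∃ v, f v < r + 1 / ((n : ℝ) + 1) := by
    intro n
    refine exists_lt_of_ciInf_lt (lt_add_of_pos_right _ ?_)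
    positivity
  choose s hs using hex
  have hcs : CauchySeq s := by
    refine cauchySeq_of_le_tendsto_0
      (fun n : ℕ => Real.sqrt (4 * ((r + 1 / ((n : ℝ) + 1)) ^ 2 - r ^ 2))) ?_ ?_
    · intro n m N hn hm
      rw [dist_eq_norm]
      refine Real.le_sqrt_of_sq_le ?_
      have h1 := key (s n) (s m)
      have h2 : ∀ k : ℕ, N ≤ k → f (s k) ^ 2 ≤ (r + 1 / ((N : ℝ) + 1)) ^ 2 := by
        intro k hk
        refine pow_le_pow_left₀ (hf0 _) ((hs k).le.trans ?_) 2
        have h3 : (N : ℝ) ≤ k := by exact_mod_cast hk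
        have h4 : 1 / ((k : ℝ) + 1) ≤ 1 / ((N : ℝ) + 1) := by
          apply one_div_le_one_div_of_le
          · positivity
          · linarith
        linarith
      have h3 := h2 n hn
      have h4 := h2 m hm
      linarith
    · have h1 : Tendsto (fun n : ℕ => 1 / ((n : ℝ) + 1)) atTop (𝓝 0) :=
        tendsto_one_div_add_atTop_nhds_zero_nat
      have h2 := ((((h1.const_add r).pow 2).sub_const (r ^ 2)).const_mul 4).sqrt
      simpa using h2
  obtain ⟨w₀, hw₀⟩ := cauchySeq_tendsto_of_complete hcs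
  have hmin : f w₀ = r := by
    refine le_antisymm ?_ (hrl w₀)
    have h1 : Tendsto (fun n : ℕ => r + 1 / ((n : ℝ) + 1) + ‖w₀ - s n‖) atTop (𝓝 r) := by
      have h2 := (tendsto_one_div_add_atTop_nhds_zero_nat (𝕜 := ℝ)).const_add r
      have h3 : Tendsto (fun n => ‖w₀ - s n‖) atTop (𝓝 0) := by
        have h4 := (hw₀.const_sub w₀).norm
        simpa using h4
      simpa using h2.add h3
    refine ge_of_tendsto' h1 fun n => ?_
    exact (hlip w₀ (s n)).trans (add_le_add (hs n).le le_rfl)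
  have hinv : ∀ g v, f (π.hom g v + b g) = f v := by
    intro g v
    have h1 : ∀ h, ‖π.hom g v + b g - b (g * h)‖ = ‖v - b h‖ := by
      intro h
      rw [hb g h]
      have h2 : π.hom g v + b g - (b g + π.hom g (b h)) = π.hom g (v - b h) := by
        rw [map_sub]
        abel
      rw [h2, π.norm]
    have h2 : f (π.hom g v + b g) = ⨆ h, ‖π.hom g v + b g - b (g * h)‖ :=
      ((Equiv.mulLeft g).surjective.iSup_comp fun k => ‖π.hom g v + b g - b k‖).symm
    rw [h2]
    simp only [h1, hf]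
  refine ⟨-w₀, fun g => ?_⟩
  have h1 := key (π.hom g w₀ + b g) w₀
  rw [hinv, hmin] at h1
  have h2 : ‖π.hom g w₀ + b g - w₀‖ ^ 2 ≤ 0 := by linarith
  have h3 : π.hom g w₀ + b g - w₀ = 0 := by
    rw [← norm_eq_zero]
    exact pow_eq_zero_iff two_ne_zero |>.mp (le_antisymm h2 (sq_nonneg _))
  rw [map_neg]
  have h4 : b g = (π.hom g w₀ + b g - w₀) + (-π.hom g w₀ - -w₀) := by abel
  rw [h4, h3, zero_add]

end Pool.Agent.Q38.PT.Ce
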