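import Pool.Agent.Q169.PT.Stm2

/-!
# Gaussian kernels are positive definite (Schoenberg)

`S_EXPK` of `Pool.Agent.Q169.PT.Stm2`.
-/

set_option autoImplicit false

namespace Pool.Agent.Q38.PT.Ex

open Filter Topology Matrix
open scoped ComplexOrder
open Pool.Agent.Q169.PT (S_EXPK)

noncomputable section

variable {κ : Type} [Fintype κ]

theorem psd_re {M : Matrix κ κ ℂ} (h : M.PosSemidef) (c : κ → ℂ) :
    0 ≤ (∑ i, ∑ j, (starRingEnd ℂ) (c i) * c j * M i j).re := by
  have h1 := h.dotProduct_mulVec_nonneg c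
  have h2 : star c ⬝ᵥ (M *ᵥ c) = ∑ i, ∑ j, (starRingEnd ℂ) (c i) * c j * M i j := by
    unfold dotProduct mulVec dotProduct
    refine Finset.sum_congr rfl fun i _ => ?_
    rw [Finset.mul_sum]
    refine Finset.sum_congr rfl fun j _ => ?_
    simp only [Pi.star_apply, RCLike.star_def]
    ring
  rw [h2] at h1
  exact (Complex.le_def.mp h1).1

theorem psd_one : (Matrix.of fun _ _ : κ => (1 : ℂ)).PosSemidef := by
  have h := Matrix.posSemidef_vecMulVec_self_star (fun _ : κ => (1 : ℂ))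
  have h2 : (Matrix.of fun _ _ : κ => (1 : ℂ)) =
      Matrix.vecMulVec (fun _ : κ => (1 : ℂ)) (star fun _ : κ => (1 : ℂ)) := by
    ext i j
    simp [Matrix.vecMulVec]
  rw [h2]
  exact h

theorem psd_pow {M : Matrix κ κ ℂ} (h : M.PosSemidef) (n : ℕ) :
    (Matrix.of fun i j : κ => M i j ^ n).PosSemidef := by
  induction n with
  | zero => simpa using psd_one (κ := κ)
  | succ n ih =>
    have h1 := ih.hadamard h
    have h2 : (Matrix.of fun i j : κ => M i j ^ (n + 1)) =
        (Matrix.of fun i j : κ => M i j ^ n) ⊙ M := by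
      ext i j
      simp [pow_succ]
    rw [h2]
    exact h1

theorem psd_exp {M : Matrix κ κ ℂ} (h : M.PosSemidef) {t : ℝ} (ht : 0 ≤ t) (c : κ → ℂ) :
    0 ≤ (∑ i, ∑ j, (starRingEnd ℂ) (c i) * c j * Complex.exp (t * M i j)).re := by
  have h1 : ∀ i j : κ, Tendsto (fun N : ℕ => ∑ n ∈ Finset.range N, (t * M i j) ^ n / n.factorial)
      atTop (𝓝 (Complex.exp (t * M i j))) := by
    intro i j
    have h2 := NormedSpace.expSeries_div_hasSum_exp (𝔸 := ℂ) (t * M i j)
    rw [← Complex.exp_eq_exp_ℂ] at h2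
    exact h2.tendsto_sum_nat
  have h3 : Tendsto (fun N : ℕ => (∑ i, ∑ j, (starRingEnd ℂ) (c i) * c j *
      ∑ n ∈ Finset.range N, (t * M i j) ^ n / n.factorial).re) atTop
      (𝓝 (∑ i, ∑ j, (starRingEnd ℂ) (c i) * c j * Complex.exp (t * M i j)).re) := by
    refine (Complex.continuous_re.tendsto _).comp ?_
    refine tendsto_finsetSum _ fun i _ => tendsto_finsetSum _ fun j _ => ?_
    exact (h1 i j).const_mul _
  refine ge_of_tendsto' h3 fun N => ?_
  have h4 : (∑ i, ∑ j, (starRingEnd ℂ) (c i) * c j *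
      ∑ n ∈ Finset.range N, (t * M i j) ^ n / n.factorial) =
      ∑ n ∈ Finset.range N, ((t ^ n / n.factorial : ℝ) : ℂ) *
        ∑ i, ∑ j, (starRingEnd ℂ) (c i) * c j * (Matrix.of fun i j : κ => M i j ^ n) i j := by
    symm
    simp only [Finset.mul_sum]
    rw [Finset.sum_comm]
    refine Finset.sum_congr rfl fun i _ => ?_
    rw [Finset.sum_comm]
    refine Finset.sum_congr rfl fun j _ => ?_
    refine Finset.sum_congr rfl fun n _ => ?_
    simp only [Matrix.of_apply]
    push_cast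
    rw [mul_pow]
    ring
  rw [h4, Complex.re_sum]
  refine Finset.sum_nonneg fun n _ => ?_
  rw [Complex.re_ofReal_mul]
  exact mul_nonneg (by positivity) (psd_re (psd_pow h n) c)

/-- JOB EXPK -/
theorem expk : S_EXPK := by
  intro H _ _ ι s c x t ht
  classical
  set A : Matrix s s ℂ := Matrix.gram ℂ (fun i : s => x i) + (Matrix.gram ℂ (fun i : s => x i))ᵀ
    with hA
  have h1 : A.PosSemidef := (Matrix.posSemidef_gram ℂ _).add (Matrix.posSemidef_gram ℂ _).transpose
  have hAe : ∀ i j : s, A i j = ((2 * (inner ℂ (x i) (x j) : ℂ).re : ℝ) : ℂ) := by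
    intro i j
    rw [hA, Matrix.add_apply, Matrix.transpose_apply, Matrix.gram_apply, Matrix.gram_apply,
      ← inner_conj_symm (x i) (x j), add_comm, Complex.add_conj, Complex.conj_re]
  have h2 := psd_exp h1 ht (fun i : s => ((Real.exp (-t * ‖x i‖ ^ 2) : ℝ) : ℂ) * c i)
  have h3 : (∑ i : s, ∑ j : s, (starRingEnd ℂ) (((Real.exp (-t * ‖x i‖ ^ 2) : ℝ) : ℂ) * c i) *
      (((Real.exp (-t * ‖x j‖ ^ 2) : ℝ) : ℂ) * c j) * Complex.exp (t * A i j)) =
      ∑ i ∈ s, ∑ j ∈ s, (starRingEnd ℂ) (c i) * c j *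
      ((Real.exp (-t * ‖x i - x j‖ ^ 2) : ℝ) : ℂ) := by
    rw [← Finset.sum_coe_sort s]
    refine Finset.sum_congr rfl fun i _ => ?_
    rw [← Finset.sum_coe_sort s]
    refine Finset.sum_congr rfl fun j _ => ?_
    rw [hAe, map_mul, Complex.conj_ofReal]
    have h4 : Real.exp (-t * ‖x i - x j‖ ^ 2) = Real.exp (-t * ‖x i‖ ^ 2) *
        Real.exp (-t * ‖x j‖ ^ 2) * Real.exp (t * (2 * (inner ℂ (x i) (x j) : ℂ).re)) := by
      rw [← Real.exp_add, ← Real.exp_add]
      congr 1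
      have h5 := norm_sub_sq (𝕜 := ℂ) (x i) (x j)
      rw [h5]
      simp only [RCLike.re_eq_complex_re]
      ring
    rw [h4]
    push_cast
    ring
  rw [h3] at h2
  exact h2

end

end Pool.Agent.Q38.PT.Ex
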