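import Pool.Agent.Q169.PT.Stm2

/-!
# Property (T) implies the vanishing of the first cohomology (Delorme)

`S_KAZ` of `Pool.Agent.Q169.PT.Stm2`.
-/

set_option autoImplicit false

namespace Pool.Agent.Q38.PT.Ka

open Filter Topology
open Pool.Agent.Q169.PT (Rep IsCoc Van1 KazhdanT S_GNS S_EXPK S_CENTER S_KAZ)

noncomputable section

section

variable {G H : Type} [Group G] [NormedAddCommGroup H] [InnerProductSpace ℂ H] (π : Rep G H)

/-- the isometry -/
def iso (g : G) : H →ₗᵢ[ℂ] H := ⟨(π.hom g).toLinearMap, π.norm g⟩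

theorem inner_map (g : G) (u v : H) : inner ℂ (π.hom g u) (π.hom g v) = inner ℂ u v :=
  (iso π g).inner_map_map u v

theorem inv_mul_cancel_apply (g : G) (v : H) : π.hom g⁻¹ (π.hom g v) = v := by
  have h : (π.hom g⁻¹ * π.hom g) v = v := by
    rw [← map_mul, inv_mul_cancel, map_one]
    rfl
  exact h

theorem mul_inv_cancel_apply (g : G) (v : H) : π.hom g (π.hom g⁻¹ v) = v := by
  have h : (π.hom g * π.hom g⁻¹) v = v := by
    rw [← map_mul, mul_inv_cancel, map_one]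
    rfl
  exact h

/-- the invariant vectors -/
def inv : Submodule ℂ H where
  carrier := {v | ∀ g, π.hom g v = v}
  zero_mem' := fun g => map_zero _
  add_mem' := by
    intro u v hu hv g
    rw [map_add, hu g, hv g]
  smul_mem' := by
    intro c v hv g
    rw [map_smul, hv g]

theorem mem_inv (v : H) : v ∈ inv π ↔ ∀ g, π.hom g v = v := Iff.rfl

theorem isClosed_inv : IsClosed (inv π : Set H) := by
  have h : (inv π : Set H) = ⋂ g, {v | π.hom g v = v} := by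
    ext v
    simp [mem_inv]
  rw [h]
  exact isClosed_iInter fun g => isClosed_eq (π.hom g).continuous continuous_id

theorem orth_map (g : G) (v : H) (hv : v ∈ (inv π)ᗮ) : π.hom g v ∈ (inv π)ᗮ := by
  rw [Submodule.mem_orthogonal] at hv ⊢
  intro u hu
  have h1 : u = π.hom g u := (hu g).symm
  rw [h1, inner_map]
  exact hv u hu

/-- the restriction to the orthogonal complement of the invariant vectors -/
def res : Rep G ((inv π)ᗮ : Submodule ℂ H) where
  hom :=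
    { toFun := fun g => ((π.hom g).comp ((inv π)ᗮ).subtypeL).codRestrict ((inv π)ᗮ)
        (fun v => orth_map π g v v.2)
      map_one' := by
        ext v
        change π.hom 1 (v : H) = v
        rw [map_one]
        rfl
      map_mul' := by
        intro g h
        ext v
        change π.hom (g * h) (v : H) = π.hom g (π.hom h v)
        rw [map_mul]
        rfl }
  norm := fun g v => π.norm g v

theorem res_apply (g : G) (v : ((inv π)ᗮ : Submodule ℂ H)) :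
    (((res π).hom g v : ((inv π)ᗮ : Submodule ℂ H)) : H) = π.hom g v := rfl

theorem near [CompleteSpace H] {S : Finset G} {ε : ℝ} (hε : 0 < ε)
    (hT : ∀ (H : Type) [NormedAddCommGroup H] [InnerProductSpace ℂ H] [CompleteSpace H]
      (π : Rep G H) (v : H), v ≠ 0 → (∀ s ∈ S, ‖π.hom s v - v‖ ≤ ε * ‖v‖) →
        ∃ u, u ≠ 0 ∧ ∀ g, π.hom g u = u) (v : H) {δ : ℝ} (hδ : 0 ≤ δ)
    (hv : ∀ s ∈ S, ‖π.hom s v - v‖ ≤ ε * δ) : ∃ p, (∀ g, π.hom g p = p) ∧ ‖v - p‖ ≤ δ := by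
  have : CompleteSpace (inv π) := (isClosed_inv π).completeSpace_coe
  have : CompleteSpace ((inv π)ᗮ : Submodule ℂ H) :=
    (Submodule.isClosed_orthogonal _).completeSpace_coe
  set p : H := (inv π).starProjection v with hp
  have hpm : p ∈ inv π := Submodule.starProjection_apply_mem _ _
  have hvm : v - p ∈ (inv π)ᗮ := Submodule.sub_starProjection_mem_orthogonal v
  refine ⟨p, hpm, ?_⟩
  by_contra hlt
  rw [not_le] at hlt
  have h1 := hT ((inv π)ᗮ : Submodule ℂ H) (res π) ⟨v - p, hvm⟩ (by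
    intro h0
    have h2 : v - p = 0 := congrArg Subtype.val h0
    rw [h2, norm_zero] at hlt
    exact absurd hlt (not_lt.mpr hδ)) (by
    intro s hs
    have h2 : ‖(res π).hom s ⟨v - p, hvm⟩ - ⟨v - p, hvm⟩‖ = ‖π.hom s v - v‖ := by
      change ‖π.hom s (v - p) - (v - p)‖ = _
      rw [map_sub, hpm s]
      congr 1
      abel
    rw [h2]
    refine (hv s hs).trans (mul_le_mul_of_nonneg_left ?_ hε.le)
    exact hlt.le)
  obtain ⟨u, hu0, hu⟩ := h1
  apply hu0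
  have h2 : (u : H) ∈ inv π := fun g => congrArg Subtype.val (hu g)
  have h3 : (u : H) ∈ (inv π)ᗮ := u.2
  have h4 : inner ℂ (u : H) (u : H) = 0 := Submodule.inner_right_of_mem_orthogonal h2 h3
  exact Subtype.ext (inner_self_eq_zero.mp h4)

theorem coc_one {b : G → H} (hb : IsCoc π b) : b 1 = 0 := by
  have h := hb 1 1
  rw [mul_one, map_one] at h
  change b 1 = b 1 + b 1 at h
  simpa using h

theorem coc_inv {b : G → H} (hb : IsCoc π b) (g : G) : b g⁻¹ = -π.hom g⁻¹ (b g) := by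
  have h := hb g⁻¹ g
  rw [inv_mul_cancel, coc_one π hb] at h
  rw [eq_neg_iff_add_eq_zero]
  exact h.symm

theorem coc_norm {b : G → H} (hb : IsCoc π b) (g h : G) : ‖b (g⁻¹ * h)‖ = ‖b g - b h‖ := by
  rw [hb g⁻¹ h, coc_inv π hb, neg_add_eq_sub, ← map_sub, π.norm, norm_sub_rev]

end

/-- JOB KAZ -/
theorem kaz (hg : S_GNS) (he : S_EXPK) (hc : S_CENTER) : S_KAZ := by
  intro G _ hG H _ _ _ π b hb
  obtain ⟨S, ε, hε, hT⟩ := hG
  set M : ℝ := ∑ s ∈ S, ‖b s‖ ^ 2 + 1 with hM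
  have hM0 : 0 < M := by
    have : 0 ≤ ∑ s ∈ S, ‖b s‖ ^ 2 := Finset.sum_nonneg fun _ _ => sq_nonneg _
    linarith
  have hbM : ∀ s ∈ S, ‖b s‖ ^ 2 ≤ M := by
    intro s hs
    have h1 : ‖b s‖ ^ 2 ≤ ∑ s ∈ S, ‖b s‖ ^ 2 :=
      Finset.single_le_sum (f := fun s => ‖b s‖ ^ 2) (fun _ _ => sq_nonneg _) hs
    linarith
  set t : ℝ := (ε * (1 / 4)) ^ 2 / (2 * M) with ht
  have ht0 : 0 < t := by positivity
  have h1 : ∀ g, (starRingEnd ℂ) ((Real.exp (-t * ‖b g⁻¹‖ ^ 2) : ℝ) : ℂ) =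
      ((Real.exp (-t * ‖b g‖ ^ 2) : ℝ) : ℂ) := by
    intro g
    rw [Complex.conj_ofReal, coc_inv π hb, norm_neg, π.norm]
  have h2 : ∀ c : G →₀ ℂ, 0 ≤ (c.sum fun g a => c.sum fun h b' =>
      (starRingEnd ℂ) a * b' * ((Real.exp (-t * ‖b (g⁻¹ * h)‖ ^ 2) : ℝ) : ℂ)).re := by
    intro c
    have h3 := he H G c.support c b t ht0.le
    have h4 : (c.sum fun g a => c.sum fun h b' =>
        (starRingEnd ℂ) a * b' * ((Real.exp (-t * ‖b (g⁻¹ * h)‖ ^ 2) : ℝ) : ℂ)) =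
        ∑ i ∈ c.support, ∑ j ∈ c.support, (starRingEnd ℂ) (c i) * c j *
          ((Real.exp (-t * ‖b i - b j‖ ^ 2) : ℝ) : ℂ) := by
      unfold Finsupp.sum
      refine Finset.sum_congr rfl fun i _ => Finset.sum_congr rfl fun j _ => ?_
      beta_reduce
      rw [coc_norm π hb]
    rw [h4]
    exact h3
  obtain ⟨H', i1, i2, i3, π', ξ, hξ⟩ := hg G (fun g => ((Real.exp (-t * ‖b g‖ ^ 2) : ℝ) : ℂ)) h1 h2
  have hn : ‖ξ‖ ^ 2 = 1 := by
    have h3 := hξ 1
    rw [map_one, coc_one π hb, norm_zero] at h3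
    change inner ℂ ξ ξ = _ at h3
    rw [inner_self_eq_norm_sq_to_K] at h3
    have h4 : ((‖ξ‖ ^ 2 : ℝ) : ℂ) = ((Real.exp (-t * 0 ^ 2) : ℝ) : ℂ) := by
      rw [← h3]
      push_cast
      rfl
    have h5 := Complex.ofReal_injective h4
    simpa using h5
  have hd : ∀ g, ‖π'.hom g ξ - ξ‖ ^ 2 = 2 - 2 * Real.exp (-t * ‖b g‖ ^ 2) := by
    intro g
    have h3 := norm_sub_sq (𝕜 := ℂ) ξ (π'.hom g ξ)
    rw [hξ g, π'.norm, hn] at h3
    rw [norm_sub_rev, h3, RCLike.re_eq_complex_re, Complex.ofReal_re]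
    ring
  obtain ⟨p, hp1, hp2⟩ := near π' hε hT ξ (δ := 1 / 4) (by norm_num) (by
    intro s hs
    have h3 : ‖π'.hom s ξ - ξ‖ ^ 2 ≤ (ε * (1 / 4)) ^ 2 := by
      rw [hd s]
      have h4 := Real.add_one_le_exp (-t * ‖b s‖ ^ 2)
      have h5 : t * ‖b s‖ ^ 2 ≤ t * M := mul_le_mul_of_nonneg_left (hbM s hs) ht0.le
      have h6 : 2 * (t * M) = (ε * (1 / 4)) ^ 2 := by
        rw [ht]
        field_simp
      linarith
    exact (abs_le_of_sq_le_sq' h3 (by positivity)).2)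
  have hhalf : ∀ g, ‖π'.hom g ξ - ξ‖ ≤ 1 / 2 := by
    intro g
    have h3 : π'.hom g ξ - ξ = π'.hom g (ξ - p) - (ξ - p) := by
      rw [map_sub, hp1 g]
      abel
    rw [h3]
    refine (norm_sub_le _ _).trans ?_
    rw [π'.norm]
    linarith
  refine hc G H π b hb ⟨Real.sqrt (1 / t), fun g => ?_⟩
  refine Real.le_sqrt_of_sq_le ?_
  have h3 : ‖π'.hom g ξ - ξ‖ ^ 2 ≤ (1 / 2) ^ 2 := pow_le_pow_left₀ (norm_nonneg _) (hhalf g) 2
  rw [hd g] at h3
  have h4 := Real.add_one_le_exp (t * ‖b g‖ ^ 2)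
  have h5 : Real.exp (-t * ‖b g‖ ^ 2) * Real.exp (t * ‖b g‖ ^ 2) = 1 := by
    rw [← Real.exp_add]
    simp
  have h6 : 0 < Real.exp (t * ‖b g‖ ^ 2) := Real.exp_pos _
  have h7 : 7 / 8 ≤ Real.exp (-t * ‖b g‖ ^ 2) := by linarith
  have h8 : 7 / 8 * Real.exp (t * ‖b g‖ ^ 2) ≤ 1 := by
    rw [← h5]
    exact mul_le_mul_of_nonneg_right h7 h6.le
  rw [le_div_iff₀ ht0]
  linarith

end

end Pool.Agent.Q38.PT.Ka
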