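import Pool.Agent.Q169.PT.Stm3
import Pool.Agent.TH38.ZT.Gen

/-!
# The cohomology with coefficients in the group ring does not depend on the resolution

`S_COHI` of `Pool.Agent.Q169.PT.Stm3`.
-/

set_option autoImplicit false

namespace Pool.Agent.Q38.PT.Co

open scoped Matrix
open Pool.Agent.H919R4.ZS
open Pool.Agent.TH38.ZT

noncomputable section

variable {G : Type} [Group G] (X X' : FinRes G)

/-- a cochain map -/
structure CM (F : ∀ i, Matrix (Fin (X.n i)) (Fin (X'.n i)) (MonoidAlgebra ℤ G)) : Prop where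
  comm : ∀ i, X.d i * F i = F (i + 1) * X'.d i

variable {X X'}

theorem cob_apply (i : ℕ) (y : Fin (X.n i) → MonoidAlgebra ℤ G) : X.cobd i y = X.d i *ᵥ y := rfl

theorem mem_ker (i : ℕ) (y : Fin (X.n i) → MonoidAlgebra ℤ G) :
    y ∈ (X.cobd i).ker ↔ X.d i *ᵥ y = 0 := Iff.rfl

/-- multiplication by a matrix -/
def mv {a b : ℕ} (A : Matrix (Fin a) (Fin b) (MonoidAlgebra ℤ G)) :
    (Fin b → MonoidAlgebra ℤ G) →+ (Fin a → MonoidAlgebra ℤ G) where
  toFun y := A *ᵥ y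
  map_zero' := Matrix.mulVec_zero _
  map_add' := Matrix.mulVec_add _

theorem mv_apply {a b : ℕ} (A : Matrix (Fin a) (Fin b) (MonoidAlgebra ℤ G))
    (y : Fin b → MonoidAlgebra ℤ G) : mv A y = A *ᵥ y := rfl

variable {F : ∀ i, Matrix (Fin (X.n i)) (Fin (X'.n i)) (MonoidAlgebra ℤ G)}

theorem ker_map (hF : CM X X' F) (i : ℕ) (y : Fin (X'.n i) → MonoidAlgebra ℤ G)
    (hy : y ∈ (X'.cobd i).ker) : mv (F i) y ∈ (X.cobd i).ker := by
  rw [mem_ker] at hy ⊢
  rw [mv_apply, Matrix.mulVec_mulVec, hF.comm, ← Matrix.mulVec_mulVec, hy, Matrix.mulVec_zero]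

/-- the map on cocycles -/
def km (hF : CM X X' F) (i : ℕ) : (X'.cobd i).ker →+ (X.cobd i).ker :=
  ((mv (F i)).comp (X'.cobd i).ker.subtype).codRestrict (X.cobd i).ker
    (fun y => ker_map hF i y y.2)

theorem km_coe (hF : CM X X' F) (i : ℕ) (y : (X'.cobd i).ker) :
    ((km hF i y : (X.cobd i).ker) : Fin (X.n i) → MonoidAlgebra ℤ G) = F i *ᵥ (y : _) := rfl

theorem cob_map (hF : CM X X' F) (i : ℕ) (y : Fin (X'.n i) → MonoidAlgebra ℤ G)
    (hy : y ∈ X'.coboundaries i) : mv (F i) y ∈ X.coboundaries i := by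
  cases i with
  | zero =>
    have h : y = 0 := hy
    rw [h, map_zero]
    exact AddSubgroup.zero_mem _
  | succ i =>
    obtain ⟨z, hz⟩ := hy
    refine ⟨mv (F i) z, ?_⟩
    rw [cob_apply, mv_apply, mv_apply, Matrix.mulVec_mulVec, hF.comm, ← Matrix.mulVec_mulVec, ← hz]
    rfl

/-- the map on cohomology -/
def mp (hF : CM X X' F) (i : ℕ) : X'.cohomology i →+ X.cohomology i :=
  QuotientAddGroup.map _ _ (km hF i) (fun y hy => cob_map hF i y hy)

theorem mp_mk (hF : CM X X' F) (i : ℕ) (y : (X'.cobd i).ker) :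
    mp hF i (QuotientAddGroup.mk y) = QuotientAddGroup.mk (km hF i y) := rfl

theorem mp_comp (hF : CM X X' F)
    {K : ∀ i, Matrix (Fin (X'.n i)) (Fin (X.n i)) (MonoidAlgebra ℤ G)} (hK : CM X' X K)
    (hF0 : ∀ k, eps X' (F 0 k) = X.aug k) (hK0 : ∀ k, eps X (K 0 k) = X'.aug k) (i : ℕ)
    (z : X.cohomology i) : mp hF i (mp hK i z) = z := by
  obtain ⟨H, hH0, hH⟩ := exists_homotopy X (fun i => F i * K i) (by
      intro k
      rw [Matrix.mul_apply_eq_vecMul, eps_vecMul, ← hF0 k]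
      exact Finset.sum_congr rfl fun j _ => by rw [hK0 j]) (by
      intro i
      rw [← Matrix.mul_assoc, hF.comm, Matrix.mul_assoc, hK.comm, ← Matrix.mul_assoc])
  obtain ⟨y, rfl⟩ := QuotientAddGroup.mk_surjective z
  rw [mp_mk, mp_mk]
  refine (QuotientAddGroup.eq).mpr ?_
  have key : -(F i *ᵥ (K i *ᵥ (y : Fin (X.n i) → MonoidAlgebra ℤ G))) + (y : _) ∈
      X.coboundaries i := by
    have hy : X.d i *ᵥ (y : Fin (X.n i) → MonoidAlgebra ℤ G) = 0 := y.2
    rw [Matrix.mulVec_mulVec]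
    cases i with
    | zero =>
      have h1 : (F 0 * K 0) *ᵥ (y : Fin (X.n 0) → MonoidAlgebra ℤ G) = y := by
        have h2 : (F 0 * K 0 - 1) *ᵥ (y : Fin (X.n 0) → MonoidAlgebra ℤ G) = 0 := by
          rw [hH0, ← Matrix.mulVec_mulVec, hy, Matrix.mulVec_zero]
        rw [Matrix.sub_mulVec, Matrix.one_mulVec, sub_eq_zero] at h2
        exact h2
      rw [h1, neg_add_cancel]
      exact AddSubgroup.zero_mem _
    | succ i =>
      have h2 : (F (i + 1) * K (i + 1) - 1) *ᵥ (y : Fin (X.n (i + 1)) → MonoidAlgebra ℤ G) =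
          X.d i *ᵥ (H i *ᵥ (y : _)) := by
        rw [hH i, Matrix.add_mulVec, ← Matrix.mulVec_mulVec, ← Matrix.mulVec_mulVec, hy,
          Matrix.mulVec_zero, add_zero]
      rw [Matrix.sub_mulVec, Matrix.one_mulVec] at h2
      have h3 : -((F (i + 1) * K (i + 1)) *ᵥ (y : Fin (X.n (i + 1)) → MonoidAlgebra ℤ G)) + (y : _) =
          -(X.d i *ᵥ (H i *ᵥ (y : _))) := by
        rw [← h2]
        abel
      rw [h3]
      exact AddSubgroup.neg_mem _ ⟨H i *ᵥ (y : _), rfl⟩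
  exact key

/-- **COHI** -/
theorem cohi : Pool.Agent.Q169.PT.S_COHI := by
  intro G _ X X' i
  obtain ⟨F, hF0, hF⟩ := exists_chain_map X X'
  obtain ⟨K, hK0, hK⟩ := exists_chain_map X' X
  have h1 : CM X X' F := ⟨hF⟩
  have h2 : CM X' X K := ⟨hK⟩
  exact ⟨{ toFun := mp h2 i
           invFun := mp h1 i
           left_inv := fun z => mp_comp h1 h2 hF0 hK0 i z
           right_inv := fun z => mp_comp h2 h1 hK0 hF0 i z
           map_add' := (mp h2 i).map_add }⟩

end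

end Pool.Agent.Q38.PT.Co
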