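import Pool.Agent.Q91.PT.Stm
import Pool.Agent.H739K.BND
import Pool.Agent.H739K.CONV

/-!
# Project PT (helper91), job FEW: exponentially few polygons have few flippable corners
-/

set_option autoImplicit false

namespace Pool.Agent.Q38.PT.FEW

open Finset Pool.Agent.H976R2 Pool.Agent.H739K Pool.Agent.Q91.PT
open scoped Classical

noncomputable section

/-- powers of the logarithm are small -/
lemma log9 (K l : ℝ) (hK : 0 ≤ K) (hl : 0 < l) : ∃ C : ℝ, ∀ n : ℕ, 1 ≤ n →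
    K * Real.log n ^ 9 ≤ l * n + C := by
  refine ⟨(K * 18 ^ 9) ^ 2 / (4 * l), fun n hn => ?_⟩
  have hn0 : (0 : ℝ) ≤ n := Nat.cast_nonneg n
  have hn1 : (1 : ℝ) ≤ n := by exact_mod_cast hn
  have h1 : Real.log n ≤ (n : ℝ) ^ (1 / 18 : ℝ) / (1 / 18) := Real.log_le_rpow_div hn0 (by norm_num)
  have h2 : 0 ≤ Real.log n := Real.log_nonneg hn1
  have h3 : Real.log n ^ 9 ≤ 18 ^ 9 * Real.sqrt n := by
    calc Real.log n ^ 9 ≤ ((n : ℝ) ^ (1 / 18 : ℝ) / (1 / 18)) ^ 9 := pow_le_pow_left₀ h2 h1 9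
      _ = 18 ^ 9 * ((n : ℝ) ^ (1 / 18 : ℝ)) ^ 9 := by ring
      _ = 18 ^ 9 * Real.sqrt n := by
        have e1 : ((n : ℝ) ^ (1 / 18 : ℝ)) ^ 9 = Real.sqrt n := by
          rw [← Real.rpow_natCast, ← Real.rpow_mul hn0, Real.sqrt_eq_rpow]
          norm_num
        rw [e1]
  have h4 : K * Real.log n ^ 9 ≤ K * 18 ^ 9 * Real.sqrt n := by
    calc K * Real.log n ^ 9 ≤ K * (18 ^ 9 * Real.sqrt n) := mul_le_mul_of_nonneg_left h3 hK
      _ = _ := by ring
  refine h4.trans ?_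
  set a : ℝ := K * 18 ^ 9
  have h5 : Real.sqrt n ^ 2 = n := Real.sq_sqrt hn0
  set q : ℝ := Real.sqrt n
  have h6 : l * q ^ 2 + a ^ 2 / (4 * l) - a * q = l * (q - a / (2 * l)) ^ 2 := by
    field_simp
    ring
  have h7 : 0 ≤ l * (q - a / (2 * l)) ^ 2 := by positivity
  rw [h5] at h6
  linarith

/-- Job FEW. -/
theorem t (hstp : S_stp) (hfil : S_fil) (hfle : S_fle) : S_few := by
  obtain ⟨r, L, fl, hr, hF⟩ := hfil
  obtain ⟨ε, hε, C, θ, hC, hθ0, hθ1, hB⟩ := hstp r L Q0 fl hr (by decide) hF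
  obtain ⟨hmu, K, hK, hb⟩ := BND_proof CONV_proof
  have hmu0 : (0 : ℝ) < H981.mu := by linarith
  have hl : 0 < -Real.log θ / 2 := by
    have := Real.log_neg hθ0 hθ1
    linarith
  obtain ⟨C1, hC1⟩ := log9 K _ hK hl
  refine ⟨ε / 16, -Real.log θ / 2, C * Real.exp C1, by positivity, hl, by positivity, fun n hn hodd => ?_⟩
  obtain ⟨hlo, _⟩ := hb n hn hodd
  have hpos : (0 : ℝ) < (KP n).card := lt_of_lt_of_le (by positivity) hlo
  refine ⟨by exact_mod_cast hpos, ?_⟩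
  have h1 : (KP n).filter (fun w => ((Fl w).card : ℝ) < ε / 16 * n) ⊆
      (SW n).filter (fun w => (occ Q0 w : ℝ) ≤ ε * n) := by
    intro w hw
    rw [Finset.mem_filter] at hw ⊢
    obtain ⟨hw1, hw2⟩ := hw
    have hw3 : w ∈ SW n := (Finset.mem_filter.1 hw1).1
    refine ⟨hw3, ?_⟩
    have h2 : occ Q0 w ≤ 16 * (Fl w).card := hfle.2 w (mem_SW.1 hw3).2
    have h3 : (occ Q0 w : ℝ) ≤ 16 * (Fl w).card := by exact_mod_cast h2
    linarith
  have h2 : (((KP n).filter (fun w => ((Fl w).card : ℝ) < ε / 16 * n)).card : ℝ) ≤ C * (θ * H981.mu) ^ n :=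
    le_trans (by exact_mod_cast Finset.card_le_card h1) (hB n)
  refine h2.trans ?_
  have h3 := hC1 n (by omega)
  have h4 : θ ^ n = Real.exp (n * Real.log θ) := by
    rw [mul_comm, Real.exp_mul, Real.exp_log hθ0, Real.rpow_natCast]
  calc C * (θ * H981.mu) ^ n = C * Real.exp (n * Real.log θ) * H981.mu ^ n := by
        rw [mul_pow, h4]; ring
    _ ≤ C * (Real.exp C1 * Real.exp (-(-Real.log θ / 2) * n) * Real.exp (-(K * Real.log n ^ 9))) * H981.mu ^ n := by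
        refine mul_le_mul_of_nonneg_right (mul_le_mul_of_nonneg_left ?_ hC.le) (by positivity)
        rw [← Real.exp_add, ← Real.exp_add]
        refine Real.exp_le_exp.2 ?_
        linarith
    _ = C * Real.exp C1 * Real.exp (-(-Real.log θ / 2) * n) * (H981.mu ^ n * Real.exp (-(K * Real.log n ^ 9))) := by
        ring
    _ ≤ _ := mul_le_mul_of_nonneg_left hlo (by positivity)

end

end Pool.Agent.Q38.PT.FEW
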